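import Mathlib
import Pool.Agent.Work.LRSHedge.Par

set_option autoImplicit false
open MvPolynomial

namespace Pool.Agent.Results.MP_6d3bd7_al.AllFrobeniusPowers

/-- Let `F` be a finite field with `q` elements, `s` a divisor of `q` with `s < q` (every power
of the characteristic is `s * q ^ m` for exactly one such pair `s, m`), and `α` a composition of
`n`. The Hilbert series of the invariants of the parabolic subgroup `P_α` in
`F[x_1..x_n]/(x_i ^ (s * q ^ m))` is the sum over `β ≤ α` with `|β| ≤ m` of
`t^{s e(m,α,β)} ∏_{j<|β|} (1-t^{s (q^m-q^j)}) / ∏_i ∏_{j<β_i} (1-t^{c_i (q^{B_i}-q^{B_{i-1}+j})})`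
with `c_i = 1` if `β_r = α_r` for all `r ≤ i` and `c_i = s` otherwise. -/
theorem result (F : Type) [Field F] [Fintype F] (q m n l s : ℕ) (α : Fin l → ℕ)
    (I : Ideal (MvPolynomial (Fin n) F)) (hq : q = Fintype.card F) (hs : s ∣ q) (hs' : s < q)
    (hn : ∑ i, α i = n)
    (hI : I = Ideal.span (Set.range fun i : Fin n =>
      (X i : MvPolynomial (Fin n) F) ^ (s * q ^ m))) :
    PowerSeries.mk (fun d : ℕ =>
        ((Module.finrank F (Submodule.map (Ideal.Quotient.mkₐ F I).toLinearMap
          (Submodule.span F {f : MvPolynomial (Fin n) F |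
            f ∈ homogeneousSubmodule (Fin n) F d ∧
            ∀ M : Matrix (Fin n) (Fin n) F, IsUnit M.det →
              (∀ (i j : Fin n) (k : ℕ),
                j.val < ∑ r ∈ Finset.univ.filter (fun r : Fin l => r.val < k), α r →
                ∑ r ∈ Finset.univ.filter (fun r : Fin l => r.val < k), α r ≤ i.val →
                M i j = 0) →
              aeval (fun j : Fin n => ∑ i : Fin n,
                  (C (M i j) : MvPolynomial (Fin n) F) * (X i : MvPolynomial (Fin n) F)) f
                - f ∈ I})) : ℕ) : ℚ))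
      = ∑ β ∈ (Fintype.piFinset (fun i : Fin l => Finset.range (α i + 1))).filter
              (fun β => ∑ i, β i ≤ m),
          (PowerSeries.X : PowerSeries ℚ) ^ (s * ∑ i : Fin l, (α i - β i) *
              (q ^ m - q ^ (∑ r ∈ Finset.univ.filter (fun r : Fin l => r.val ≤ i.val), β r)))
          * ((∏ j ∈ Finset.range (∑ i, β i),
                (1 - (PowerSeries.X : PowerSeries ℚ) ^ (s * (q ^ m - q ^ j)))) *
             ∏ i : Fin l, ∏ j ∈ Finset.range (β i),
                (1 - (PowerSeries.X : PowerSeries ℚ) ^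
                  ((if ∀ r ≤ i, β r = α r then 1 else s) *
                    (q ^ (∑ r ∈ Finset.univ.filter (fun r : Fin l => r.val ≤ i.val), β r) -
                      q ^ ((∑ r ∈ Finset.univ.filter (fun r : Fin l => r.val < i.val), β r)
                        + j))))⁻¹) := by
  subst hq hI
  have h := Pool.Agent.Work.MP_a1538a_al.Par.hilbert_series_par (F := F)
    (Pool.Agent.Work.MP_a1538a_al.Par.ps_exN_self hn) hs hs' m
  rw [← Pool.Agent.Work.MP_a1538a_al.Par.span_eq_WG hn] at h
  simp only [Pool.Agent.Work.MP_a1538a_al.Par.ps_exN, Nat.lt_succ_iff] at h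
  exact h

end Pool.Agent.Results.MP_6d3bd7_al.AllFrobeniusPowers
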